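import Pool.Agent.Lib.MP_a1720d_lc.Main

set_option autoImplicit false

namespace Pool.Agent.Results.MP_a1720d_lc.InfDefectComputable

open Pool.Agent.Lib.MP_a1720d_lc

/-- The infinite defect is computable: over any encodable set of letters (for instance `ℕ`, which
treats all finite alphabets at once) there is a computable function whose value at every
nonempty finite word `w` is the infinite defect of `w`. -/
theorem result {α : Type} [Primcodable α] :
    ∃ f : List α → ℕ, Computable f ∧ ∀ w : List α, w ≠ [] → (f w : ℕ∞) = infiniteDefect w :=
  ⟨fun w => min (rightVal w) (rightVal w.reverse), primrec_val.to_comp, fun _ hw => val_eq hw⟩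

end Pool.Agent.Results.MP_a1720d_lc.InfDefectComputable
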